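import Pool.Agent.K3h28.FZ.Good

/-!
Subfields of Hausdorff dimension zero containing a given sequence of thin compact sets.
-/

set_option autoImplicit false

open Set Filter Topology MeasureTheory
open scoped NNReal ENNReal

namespace Pool.Agent.K3h28.FZ

/-- a countable family of real functions of several real variables, each locally Hoelder continuous
on an open set -/
structure Fam where
  /-- number of variables -/
  k : ℕ → ℕ
  /-- domains -/
  U : ∀ n, Set (Fin (k n) → ℝ)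
  /-- functions -/
  f : ∀ n, (Fin (k n) → ℝ) → ℝ
  hol : ∀ n, LocHoelder (U n) (f n)

/-- subfields of the reals which are `σ`-compact, all of whose finite powers have Hausdorff
dimension zero, relatively algebraically closed, and closed under the functions of the family -/
structure Small (Φ : Fam) (F : Subfield ℝ) : Prop where
  sigma : IsSigmaCompact (F : Set ℝ)
  dim : ∀ k : ℕ, dimH {v : Fin k → ℝ | ∀ i, v i ∈ F} = 0
  alg : ∀ x : ℝ, IsAlgebraic F x → x ∈ F
  fam : ∀ n, ∀ v ∈ Φ.U n, (∀ i, v i ∈ F) → Φ.f n v ∈ F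

/-- the closure under countably many good operations -/
theorem closure_exists {R : ℕ → ℝ} (hR : ∀ i : ℕ, ((i : ℝ) + 1) ^ 2 ≤ R i) {ι : Type*} [Countable ι]
    [Nonempty ι] (k : ι → ℕ) (rel : ∀ j, (Fin (k j) → ℝ) → ℝ → Prop) (hgood : ∀ j, GoodOp (rel j))
    (A : ℕ → Set ℝ) (hAc : ∀ n, IsCompact (A n)) (hAt : ∀ n, Thin R (A n)) :
    ∃ E : ℕ → Set ℝ, Monotone E ∧ (∀ n, IsCompact (E n)) ∧ (∀ n, Thin R (E n)) ∧
      (∀ n, A n ⊆ ⋃ m, E m) ∧
      ∀ j v x, (∀ i, v i ∈ ⋃ n, E n) → rel j v x → x ∈ ⋃ n, E n := by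
  classical
  obtain ⟨e, he⟩ := exists_surjective_nat ι
  set E : ℕ → Set ℝ := fun n => Nat.rec (A 0)
    (fun n X => (X ∪ A (n + 1)) ∪ ⋃ j ∈ Finset.range (n + 1), Im (rel (e j)) X) n with hE
  have hE0 : E 0 = A 0 := rfl
  have hE1 : ∀ n, E (n + 1) = (E n ∪ A (n + 1)) ∪
      ⋃ j ∈ Finset.range (n + 1), Im (rel (e j)) (E n) := fun n => rfl
  have hcomp : ∀ n, IsCompact (E n) := by
    intro n
    induction n with
    | zero => rw [hE0]; exact hAc 0
    | succ n ih =>
      rw [hE1]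
      exact (ih.union (hAc _)).union (Finset.isCompact_biUnion _ fun j _ => (hgood _).im_compact ih)
  have hthin : ∀ n, Thin R (E n) := by
    intro n
    induction n with
    | zero => rw [hE0]; exact hAt 0
    | succ n ih =>
      rw [hE1]
      exact (ih.union hR (hAt _)).union hR (thin_biUnion hR _ _ fun j _ =>
        (hgood _).im_thin hR (hcomp n) ih)
  have hmono : Monotone E := monotone_nat_of_le_succ fun n => by
    rw [hE1]
    exact fun x hx => Or.inl (Or.inl hx)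
  refine ⟨E, hmono, hcomp, hthin, ?_, ?_⟩
  · intro n x hx
    rw [mem_iUnion]
    refine ⟨n, ?_⟩
    cases n with
    | zero => rw [hE0]; exact hx
    | succ n => rw [hE1]; exact Or.inl (Or.inr hx)
  · intro j v x hv hx
    obtain ⟨j', rfl⟩ := he j
    have hv' : ∀ i, ∃ n, v i ∈ E n := fun i => mem_iUnion.1 (hv i)
    choose n hn using hv'
    obtain ⟨N, hN⟩ : ∃ N : ℕ, ∀ i, n i ≤ N := ⟨Finset.univ.sup n, fun i => Finset.le_sup (Finset.mem_univ i)⟩
    rw [mem_iUnion]
    refine ⟨max N j' + 1, ?_⟩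
    rw [hE1]
    refine Or.inr ?_
    rw [mem_iUnion₂]
    refine ⟨j', Finset.mem_range.2 (by have := le_max_right N j'; omega), v, fun i => ?_, hx⟩
    exact hmono ((hN i).trans (le_max_left _ _)) (hn i)

lemma locHoelder_of_contDiffAt {k : ℕ} {U : Set (Fin k → ℝ)} {f : (Fin k → ℝ) → ℝ} (hU : IsOpen U)
    (h : ∀ x ∈ U, ContDiffAt ℝ 1 f x) : LocHoelder U f := by
  refine ⟨hU, fun x hx => ?_⟩
  obtain ⟨K, t, ht, hK⟩ := (h x hx).exists_lipschitzOnWith
  exact ⟨t, ht, K, 1, one_pos, hK.holderOnWith⟩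

/-- compact exhaustion of an open set -/
lemma exhaust {k : ℕ} {U : Set (Fin k → ℝ)} (hU : IsOpen U) :
    ∃ K : ℕ → Set (Fin k → ℝ), (∀ n, IsCompact (K n)) ∧ (∀ n, K n ⊆ U) ∧ ∀ x ∈ U, ∃ n, x ∈ K n := by
  obtain ⟨G, h1, h2, h3, h4⟩ := hU.exists_iUnion_isClosed
  refine ⟨fun n => G n ∩ Metric.closedBall 0 n, fun n => ?_, fun n => inter_subset_left.trans (h2 n), ?_⟩
  · exact (isCompact_closedBall _ _).inter_left (h1 n)
  · intro x hx
    rw [← h3, mem_iUnion] at hx
    obtain ⟨n, hn⟩ := hx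
    obtain ⟨m, hm⟩ := exists_nat_ge ‖x‖
    refine ⟨max n m, h4 (le_max_left _ _) hn, ?_⟩
    rw [mem_closedBall_zero_iff]
    exact hm.trans (by exact_mod_cast le_max_right _ _)

/-- number of variables of the operations -/
def opk (Φ : Fam) : (Fin 5 ⊕ ℕ) → ℕ
  | .inl 0 => 0
  | .inl 1 => 2
  | .inl 2 => 2
  | .inl 3 => 1
  | .inl 4 => 1
  | .inr n => Φ.k n

/-- domains -/
def opU (Φ : Fam) : ∀ j : Fin 5 ⊕ ℕ, Set (Fin (opk Φ j) → ℝ)
  | .inl 0 => univ
  | .inl 1 => univ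
  | .inl 2 => univ
  | .inl 3 => univ
  | .inl 4 => {v | v (0 : Fin 1) ≠ 0}
  | .inr n => Φ.U n

/-- field operations and the functions of the family -/
noncomputable def opf (Φ : Fam) : ∀ j : Fin 5 ⊕ ℕ, (Fin (opk Φ j) → ℝ) → ℝ
  | .inl 0 => fun _ => 1
  | .inl 1 => fun v => v (0 : Fin 2) + v (1 : Fin 2)
  | .inl 2 => fun v => v (0 : Fin 2) * v (1 : Fin 2)
  | .inl 3 => fun v => - v (0 : Fin 1)
  | .inl 4 => fun v => (v (0 : Fin 1))⁻¹
  | .inr n => Φ.f n

lemma op_hol (Φ : Fam) (j : Fin 5 ⊕ ℕ) : LocHoelder (opU Φ j) (opf Φ j) := by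
  rcases j with j | n
  · fin_cases j
    · exact locHoelder_of_contDiffAt isOpen_univ fun x _ => contDiffAt_const
    · refine locHoelder_of_contDiffAt (k := 2) (f := fun v => v 0 + v 1) isOpen_univ fun x _ => ?_
      fun_prop
    · refine locHoelder_of_contDiffAt (k := 2) (f := fun v => v 0 * v 1) isOpen_univ fun x _ => ?_
      fun_prop
    · refine locHoelder_of_contDiffAt (k := 1) (f := fun v => - v 0) isOpen_univ fun x _ => ?_
      fun_prop
    · refine locHoelder_of_contDiffAt (k := 1) (f := fun v => (v 0)⁻¹)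
        (U := {v | v (0 : Fin 1) ≠ 0}) ?_ fun x hx => ?_
      · exact isOpen_ne_fun (continuous_apply _) continuous_const
      · exact ContDiffAt.inv (by fun_prop) hx
  · exact Φ.hol n

theorem subfield_exists {R : ℕ → ℝ} (hR : ∀ i : ℕ, ((i : ℝ) + 1) ^ 2 ≤ R i) (Φ : Fam)
    (A : ℕ → Set ℝ) (hAc : ∀ n, IsCompact (A n)) (hAt : ∀ n, Thin R (A n)) :
    ∃ F : Subfield ℝ, Small Φ F ∧ ∀ n, A n ⊆ (F : Set ℝ) := by
  classical
  have hex : ∀ j : Fin 5 ⊕ ℕ, ∃ K : ℕ → Set (Fin (opk Φ j) → ℝ), (∀ n, IsCompact (K n)) ∧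
      (∀ n, K n ⊆ opU Φ j) ∧ ∀ x ∈ opU Φ j, ∃ n, x ∈ K n := fun j => exhaust (op_hol Φ j).1
  choose K hK1 hK2 hK3 using hex
  set kk : (((Fin 5 ⊕ ℕ) × ℕ) ⊕ ℕ) → ℕ := fun j => Sum.elim (fun a => opk Φ a.1) (fun d => d) j with hkk
  set rel : ∀ j : ((Fin 5 ⊕ ℕ) × ℕ) ⊕ ℕ, (Fin (kk j) → ℝ) → ℝ → Prop := fun j => match j with
    | .inl a => fun v x => v ∈ K a.1 a.2 ∧ x = opf Φ a.1 v
    | .inr d => fun (v : Fin d → ℝ) x => pval v x = 0 with hrel
  have hgood : ∀ j, GoodOp (rel j) := by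
    intro j
    rcases j with a | d
    · exact good_fun (op_hol Φ a.1) (hK1 _ _) (hK2 _ _)
    · exact good_root d
  obtain ⟨E, hE0, hE1, hE2, hE3, hE4⟩ := closure_exists hR kk rel hgood A hAc hAt
  set W := ⋃ n, E n with hW
  have hop : ∀ (j : Fin 5 ⊕ ℕ) (v : Fin (opk Φ j) → ℝ), v ∈ opU Φ j → (∀ i, v i ∈ W) →
      opf Φ j v ∈ W := by
    intro j v hv hvW
    obtain ⟨n, hn⟩ := hK3 j v hv
    exact hE4 (.inl (j, n)) v _ hvW ⟨hn, rfl⟩
  have h1 : (1 : ℝ) ∈ W := hop (.inl 0) (fun i => i.elim0) (mem_univ _) fun i => i.elim0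
  have hadd : ∀ a b : ℝ, a ∈ W → b ∈ W → a + b ∈ W := by
    intro a b ha hb
    have := hop (.inl 1) (![a, b] : Fin 2 → ℝ) (mem_univ _) (by
      intro i
      fin_cases i
      · exact ha
      · exact hb)
    simpa [opf] using this
  have hmul : ∀ a b : ℝ, a ∈ W → b ∈ W → a * b ∈ W := by
    intro a b ha hb
    have := hop (.inl 2) (![a, b] : Fin 2 → ℝ) (mem_univ _) (by
      intro i
      fin_cases i
      · exact ha
      · exact hb)
    simpa [opf] using this
  have hneg : ∀ a : ℝ, a ∈ W → -a ∈ W := fun a ha =>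
    hop (.inl 3) (fun _ : Fin 1 => a) (mem_univ _) fun i => ha
  have h0 : (0 : ℝ) ∈ W := by
    have := hadd 1 (-1) h1 (hneg 1 h1)
    simpa using this
  have hinv : ∀ a : ℝ, a ∈ W → a⁻¹ ∈ W := by
    intro a ha
    rcases eq_or_ne a 0 with h | h
    · rw [h, inv_zero]; exact h0
    · exact hop (.inl 4) (fun _ : Fin 1 => a) h fun i => ha
  set F : Subfield ℝ :=
    { carrier := W
      mul_mem' := fun {a b} ha hb => hmul a b ha hb
      one_mem' := h1
      add_mem' := fun {a b} ha hb => hadd a b ha hb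
      zero_mem' := h0
      neg_mem' := fun {a} ha => hneg a ha
      inv_mem' := fun a ha => hinv a ha } with hF
  have hFW : (F : Set ℝ) = W := rfl
  refine ⟨F, ⟨⟨E, hE1, rfl⟩, ?_, ?_, ?_⟩, hE3⟩
  · intro k
    have e : {v : Fin k → ℝ | ∀ i, v i ∈ F} = ⋃ n, {v : Fin k → ℝ | ∀ i, v i ∈ E n} := by
      ext v
      rw [mem_iUnion]
      constructor
      · intro hv
        have hv' : ∀ i, ∃ n, v i ∈ E n := fun i => mem_iUnion.1 (hv i)
        choose n hn using hv'
        exact ⟨Finset.univ.sup n, fun i => hE0 (Finset.le_sup (Finset.mem_univ i)) (hn i)⟩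
      · rintro ⟨n, hn⟩ i
        exact mem_iUnion.2 ⟨n, hn i⟩
    rw [e, dimH_iUnion]
    simp only [thin_dimH_pow hR (hE2 _), ciSup_const]
  · intro x hx
    have hint : IsIntegral F x := hx.isIntegral
    set P := minpoly F x with hP
    have hm : P.Monic := minpoly.monic hint
    have h2 : Polynomial.aeval x P = 0 := minpoly.aeval F x
    rw [Polynomial.aeval_eq_sum_range, Finset.sum_range_succ, hm.coeff_natDegree, one_smul,
      Finset.sum_range] at h2
    have h3 := hE4 (.inr P.natDegree) (fun i : Fin P.natDegree => ((P.coeff i : F) : ℝ)) x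
      (fun i => (P.coeff i).2) (by
        show pval _ x = 0
        unfold pval
        rw [add_comm, ← h2]
        rfl)
    exact h3
  · intro n v hv hvF
    exact hop (.inr n) v hv hvF

end Pool.Agent.K3h28.FZ
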