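import Pool.Agent.K3h28.FZ.Sing
import Pool.Agent.K3h28.FZ.Field

/-!
One subfield of dimension zero carries the singular parts of countably many invariant measures.
-/

set_option autoImplicit false

open MeasureTheory Filter Topology Set
open scoped ENNReal NNReal

namespace Pool.Agent.K3h28.FZ

open Pool.Agent.W764.FB

/-- common scales for countably many measures -/
lemma common_scales (μ : ℕ → Measure T) (D : ℕ → Set T)
    (h : ∀ i, ∀ ε η : ℝ, 0 < ε → 0 < η → ∃ R₀ : ℝ, ∀ R, R₀ ≤ R → ∃ S : Finset T,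
        (S.card : ℝ) ≤ Real.exp (η * R) ∧
        μ i ((D i)ᶜ ∩ {y | ∀ s ∈ S, Real.exp (-R) < ‖y - s‖}) ≤ ENNReal.ofReal ε) :
    ∃ R : ℕ → ℝ, (∀ m : ℕ, ((m : ℝ) + 1) ^ 2 ≤ R m) ∧ ∃ S : ℕ → ℕ → Finset T, ∀ m i, i ≤ m →
      ((S m i).card : ℝ) ≤ Real.exp (R m / (m + 1)) ∧
        μ i ((D i)ᶜ ∩ {y | ∀ s ∈ S m i, Real.exp (-R m) < ‖y - s‖}) ≤
          ENNReal.ofReal ((1 / 2) ^ m) := by
  have h1 : ∀ m i : ℕ, ∃ R₀ : ℝ, ∀ R, R₀ ≤ R → ∃ S : Finset T,
        (S.card : ℝ) ≤ Real.exp ((1 / ((m : ℝ) + 1)) * R) ∧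
        μ i ((D i)ᶜ ∩ {y | ∀ s ∈ S, Real.exp (-R) < ‖y - s‖}) ≤ ENNReal.ofReal ((1 / 2) ^ m) :=
    fun m i => h i _ _ (by positivity) (by positivity)
  choose R₀ hR₀ using h1
  set R : ℕ → ℝ := fun m => ((m : ℝ) + 1) ^ 2 + ∑ i ∈ Finset.range (m + 1), |R₀ m i| with hR
  have hRle : ∀ m i, i ≤ m → R₀ m i ≤ R m := by
    intro m i hi
    have h2 : |R₀ m i| ≤ ∑ i ∈ Finset.range (m + 1), |R₀ m i| :=
      Finset.single_le_sum (f := fun i => |R₀ m i|) (fun _ _ => abs_nonneg _)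
        (Finset.mem_range.2 (by omega))
    have h3 := le_abs_self (R₀ m i)
    have h4 : 0 ≤ ((m : ℝ) + 1) ^ 2 := by positivity
    simp only [hR]
    linarith
  have h2 : ∀ m i, ∃ S : Finset T, i ≤ m → ((S.card : ℝ) ≤ Real.exp (R m / (m + 1)) ∧
        μ i ((D i)ᶜ ∩ {y | ∀ s ∈ S, Real.exp (-R m) < ‖y - s‖}) ≤
          ENNReal.ofReal ((1 / 2) ^ m)) := by
    intro m i
    by_cases hi : i ≤ m
    · obtain ⟨S, hS1, hS2⟩ := hR₀ m i (R m) (hRle m i hi)
      refine ⟨S, fun _ => ⟨?_, hS2⟩⟩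
      rwa [one_div_mul_eq_div] at hS1
    · exact ⟨∅, fun h => absurd h hi⟩
  choose S hS using h2
  refine ⟨R, fun m => ?_, S, hS⟩
  simp only [hR]
  have : 0 ≤ ∑ i ∈ Finset.range (m + 1), |R₀ m i| := Finset.sum_nonneg fun _ _ => abs_nonneg _
  linarith

/-- the compact pieces -/
def piece (R : ℕ → ℝ) (S : ℕ → ℕ → Finset T) (l i : ℕ) : Set ℝ :=
  {x | x ∈ Icc (0 : ℝ) 1 ∧ ∀ m, l ≤ m → i ≤ m → ∃ s ∈ S m i, ‖(x : T) - s‖ ≤ Real.exp (-R m)}

lemma piece_compact (R : ℕ → ℝ) (S : ℕ → ℕ → Finset T) (l i : ℕ) : IsCompact (piece R S l i) := by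
  refine isCompact_Icc.of_isClosed_subset ?_ fun x hx => hx.1
  have e : piece R S l i = Icc (0 : ℝ) 1 ∩ ⋂ m, ⋂ (_ : l ≤ m), ⋂ (_ : i ≤ m),
      ⋃ s ∈ S m i, {x : ℝ | ‖(x : T) - s‖ ≤ Real.exp (-R m)} := by
    ext x
    simp only [piece, mem_ofPred_eq, mem_inter_iff, mem_iInter, mem_iUnion, exists_prop]
  rw [e]
  refine isClosed_Icc.inter (isClosed_iInter fun m => isClosed_iInter fun _ => isClosed_iInter fun _ =>
    ?_)
  refine isClosed_biUnion_finset fun s _ => ?_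
  refine isClosed_le ?_ continuous_const
  exact ((AddCircle.continuous_mk' 1).sub continuous_const).norm

lemma cov_piece {R : ℕ → ℝ} {S : ℕ → ℕ → Finset T} {l i m : ℕ} (hl : l ≤ m) (hi : i ≤ m) {N : ℝ}
    (hN : ((S m i).card : ℝ) ≤ N) : Cov (3 * N) (Real.exp (-R m)) (piece R S l i) := by
  classical
  have hrep : ∀ s : T, ∃ b : ℝ, b ∈ Ico (0 : ℝ) 1 ∧ (b : T) = s := fun s => by
    obtain ⟨b, hb, h⟩ := AddCircle.eq_coe_Ico (p := (1 : ℝ)) s
    exact ⟨b, hb, h⟩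
  choose b hb1 hb2 using hrep
  refine ⟨(S m i).biUnion fun s => {b s - 1, b s, b s + 1}, ?_, ?_⟩
  · have h1 : ((S m i).biUnion fun s => ({b s - 1, b s, b s + 1} : Finset ℝ)).card ≤
        (S m i).card * 3 := Finset.card_biUnion_le_card_mul _ _ 3 fun s _ => Finset.card_le_three
    have h2 : (((S m i).biUnion fun s => ({b s - 1, b s, b s + 1} : Finset ℝ)).card : ℝ) ≤
        (S m i).card * 3 := by exact_mod_cast h1
    linarith
  · rintro x ⟨hx, hx2⟩
    obtain ⟨s, hs, h3⟩ := hx2 m hl hi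
    rw [← hb2 s, ← AddCircle.coe_sub, UnitAddCircle.norm_eq] at h3
    have hb := hb1 s
    set k := round (x - b s) with hk
    have h4 : (k : ℝ) ≤ 3 / 2 := by
      have := abs_sub_round (x - b s)
      rw [abs_le] at this
      linarith [this.1, this.2, hx.2, hb.1]
    have h5 : -(3 / 2 : ℝ) ≤ k := by
      have := abs_sub_round (x - b s)
      rw [abs_le] at this
      linarith [this.1, this.2, hx.1, hb.2]
    have h6 : k ≤ 1 := by
      have : (k : ℝ) < 2 := by linarith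
      have : k < 2 := by exact_mod_cast this
      omega
    have h7 : -1 ≤ k := by
      have : (-2 : ℝ) < k := by linarith
      have : -2 < k := by exact_mod_cast this
      omega
    have h8 : k = -1 ∨ k = 0 ∨ k = 1 := by omega
    rcases h8 with h | h | h
    · refine ⟨b s - 1, Finset.mem_biUnion.2 ⟨s, hs, by simp⟩, ?_⟩
      rw [h] at h3
      push_cast at h3
      have e : x - (b s - 1) = x - b s - -1 := by ring
      rwa [e]
    · refine ⟨b s, Finset.mem_biUnion.2 ⟨s, hs, by simp⟩, ?_⟩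
      rw [h] at h3
      simpa using h3
    · refine ⟨b s + 1, Finset.mem_biUnion.2 ⟨s, hs, by simp⟩, ?_⟩
      rw [h] at h3
      push_cast at h3
      have e : x - (b s + 1) = x - b s - 1 := by ring
      rwa [e]

lemma piece_thin {R : ℕ → ℝ} (hR : ∀ i : ℕ, ((i : ℝ) + 1) ^ 2 ≤ R i) {S : ℕ → ℕ → Finset T}
    (hS : ∀ m i, i ≤ m → ((S m i).card : ℝ) ≤ Real.exp (R m / (m + 1))) (l i : ℕ) :
    Thin R (piece R S l i) := by
  refine ⟨3, by norm_num, ?_⟩
  filter_upwards [eventually_ge_atTop (max l i)] with m hm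
  have hl : l ≤ m := (le_max_left _ _).trans hm
  have hi : i ≤ m := (le_max_right _ _).trans hm
  refine (cov_piece (R := R) hl hi (hS m i hi)).mono ?_ ?_ le_rfl
  · have hM := le_quot hR m
    have hm0 : (0 : ℝ) ≤ m := Nat.cast_nonneg m
    set M := R m / (m + 1) with hMd
    have e : Real.exp (3 * M) = Real.exp (2 * M) * Real.exp M := by
      rw [← Real.exp_add]; congr 1; ring
    rw [e]
    have h1 := Real.add_one_le_exp (2 * M)
    exact mul_le_mul_of_nonneg_right (by linarith) (Real.exp_pos _).le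
  · apply Real.exp_le_exp.2
    have := R_pos hR m
    linarith

/-- the pieces carry the measure off `D` -/
lemma piece_mass {μ : ℕ → Measure T} {D : ℕ → Set T} {R : ℕ → ℝ} {S : ℕ → ℕ → Finset T}
    (hS : ∀ m i, i ≤ m → μ i ((D i)ᶜ ∩ {y | ∀ s ∈ S m i, Real.exp (-R m) < ‖y - s‖}) ≤
          ENNReal.ofReal ((1 / 2) ^ m)) (i : ℕ) {W : Set T}
    (hW : ∀ l, ∀ x ∈ piece R S l i, (x : T) ∈ W) : μ i ((D i)ᶜ \ W) = 0 := by
  set bad : ℕ → Set T := fun m => {y | i ≤ m ∧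
    y ∈ (D i)ᶜ ∩ {y | ∀ s ∈ S m i, Real.exp (-R m) < ‖y - s‖}} with hbad
  have h1 : ∑' m, μ i (bad m) ≠ ∞ := by
    have h2 : ∀ m, μ i (bad m) ≤ ENNReal.ofReal ((1 / 2) ^ m) := by
      intro m
      by_cases hm : i ≤ m
      · refine (measure_mono ?_).trans (hS m i hm)
        rintro y ⟨-, hy⟩
        exact hy
      · have : bad m = ∅ := by
          ext y
          simp only [hbad, mem_ofPred_eq, mem_empty_iff_false, iff_false]
          exact fun h => hm h.1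
        rw [this, measure_empty]
        exact zero_le
    refine ne_top_of_le_ne_top ?_ (ENNReal.tsum_le_tsum h2)
    exact (summable_geometric_of_lt_one (by norm_num) (by norm_num :
      (1 / 2 : ℝ) < 1)).tsum_ofReal_ne_top
  have h2 := measure_limsup_atTop_eq_zero h1
  refine measure_mono_null ?_ h2
  rintro y ⟨hyD, hyW⟩
  rw [mem_limsup_iff_frequently_mem, frequently_atTop]
  intro l
  by_contra hcon
  push Not at hcon
  apply hyW
  obtain ⟨x, hx, rfl⟩ := AddCircle.eq_coe_Ico (p := (1 : ℝ)) y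
  refine hW l x ⟨⟨hx.1, hx.2.le⟩, fun m hlm him => ?_⟩
  have h3 := hcon m hlm
  by_contra h4
  push Not at h4
  exact h3 ⟨him, hyD, h4⟩

end Pool.Agent.K3h28.FZ
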