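import Pool.Agent.W764.FB.Cover

/-!
Fine covers: a probability measure for which `x ↦ p x` is essentially injective is carried, up to
`ε`, by `exp (η N)` arcs of radius `p ^ (-N)`, for all large `N`.
-/

set_option autoImplicit false

open MeasureTheory Filter Topology Set
open scoped ENNReal

namespace Pool.Agent.K3h28.FZ

open Pool.Agent.W764.FB
open Pool.Agent.H706R2.Ren (labels out)

theorem fine_cover {p : ℕ} (hp : 2 ≤ p) (μ : Measure T) [IsProbabilityMeasure μ]
    (hinv : MeasurePreserving (fun x : T => p • x) μ μ) (h : EssInj p μ) {ε η : ℝ} (hε : 0 < ε)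
    (hη : 0 < η) : ∃ N₀ : ℕ, ∀ N, N₀ ≤ N → ∃ S : Finset T, (S.card : ℝ) ≤ Real.exp (η * N) ∧
      μ.real {y | ∀ s ∈ S, 1 / (p : ℝ) ^ N < ‖y - s‖} ≤ ε := by
  classical
  have hpR : (2 : ℝ) ≤ p := by exact_mod_cast hp
  obtain ⟨Q1, lab1, hlab1⟩ := labels (ε := 1 / (2 * (p : ℝ))) (by positivity)
  obtain ⟨s, hs⟩ : ∃ s : ℕ, 3 * (Q1 : ℝ) / η + 1 ≤ s := exists_nat_ge _
  have hs1R : (1 : ℝ) ≤ s := by
    have : 0 ≤ 3 * (Q1 : ℝ) / η := by positivity
    linarith
  have hs1 : 1 ≤ s := by exact_mod_cast hs1R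
  have hs0 : (0 : ℝ) < s := by linarith
  have hq : 1 + (Q1 : ℝ) / s ≤ Real.exp (η / 3) := by
    have h1 : (Q1 : ℝ) / s ≤ η / 3 := by
      rw [div_le_div_iff₀ hs0 (by norm_num)]
      have h2 : 3 * (Q1 : ℝ) / η ≤ s := by linarith
      rw [div_le_iff₀ hη] at h2
      linarith
    have := Real.add_one_le_exp (η / 3)
    linarith
  obtain ⟨b, hb⟩ : ∃ b : ℕ, 3 * Real.log s / η + 1 ≤ b := exists_nat_ge _
  have hlog : 0 ≤ Real.log s := Real.log_nonneg hs1R
  have hb1R : (1 : ℝ) ≤ b := by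
    have : 0 ≤ 3 * Real.log s / η := by positivity
    linarith
  have hb1 : 1 ≤ b := by exact_mod_cast hb1R
  have hb0 : (0 : ℝ) < b := by linarith
  have hsb : (s : ℝ) ≤ Real.exp (η / 3 * b) := by
    have h2 : 3 * Real.log s / η ≤ b := by linarith
    rw [div_le_iff₀ hη] at h2
    rw [← Real.log_le_iff_le_exp hs0]
    linarith
  obtain ⟨Z, hZm, hZκ, ηz, hηz, hZ⟩ := local_inj (by omega : 0 < p) μ h (ε := ε / b) (by positivity)
  set η' : ℝ := min ηz (1 / 4) with hη'
  have hη'0 : 0 < η' := lt_min hηz (by norm_num)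
  have hη'1 : η' ≤ 1 := (min_le_right _ _).trans (by norm_num)
  have hZ' : ∀ x ∈ Z, ∀ y ∈ Z, ‖p • (x - y)‖ ≤ η' → ‖x - y‖ ≤ ‖p • (x - y)‖ / p :=
    fun x hx y hy hxy => hZ x hx y hy (hxy.trans (min_le_left _ _))
  obtain ⟨Q0, lab0, hlab0⟩ := labels (ε := η') hη'0
  obtain ⟨N₀, hN₀⟩ : ∃ N₀ : ℕ, 3 * ((Q0 : ℝ) * s) / η ≤ N₀ := exists_nat_ge _
  refine ⟨N₀, fun N hN => ?_⟩
  have hNb : (Q0 : ℝ) * s ≤ Real.exp (η / 3 * N) := by
    have h1 : 3 * ((Q0 : ℝ) * s) / η ≤ N := hN₀.trans (by exact_mod_cast hN)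
    rw [div_le_iff₀ hη] at h1
    have := Real.add_one_le_exp (η / 3 * N)
    linarith
  set g : ℕ := N / b + 1 with hg
  have hg0 : (0 : ℝ) < g := by positivity
  have hbg : (N : ℝ) ≤ b * g := by
    have h1 : N ≤ b * g := by
      have := Nat.div_add_mod N b
      have h2 := Nat.mod_lt N (by omega : b > 0)
      rw [hg, mul_add, mul_one]
      omega
    exact_mod_cast h1
  have hsg : (s : ℝ) ^ g ≤ s * Real.exp (η / 3 * N) := by
    rw [hg, pow_succ']
    apply mul_le_mul_of_nonneg_left _ hs0.le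
    calc (s : ℝ) ^ (N / b) ≤ Real.exp (η / 3 * b) ^ (N / b) := pow_le_pow_left₀ hs0.le hsb _
      _ = Real.exp (((N / b : ℕ) : ℝ) * (η / 3 * b)) := by rw [← Real.exp_nat_mul]
      _ ≤ Real.exp (η / 3 * N) := by
          apply Real.exp_le_exp.2
          have h1 : (((N / b : ℕ) : ℝ)) * b ≤ N := by
            exact_mod_cast Nat.div_mul_le_self N b
          have h2 := mul_le_mul_of_nonneg_left h1 (by positivity : 0 ≤ η / 3)
          linarith
  set CS := Finset.univ.filter fun c : Fin N → Fin (Q1 + 1) =>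
      (Finset.univ.filter fun j => c j ≠ 0).card ≤ g with hCS
  have hMle : (CS.card : ℝ) ≤ (s : ℝ) ^ g * (1 + (Q1 : ℝ) / s) ^ N := card_codes Q1 s N g hs1
  have hM2 : (CS.card : ℝ) ≤ s * Real.exp (η / 3 * N) * Real.exp (η / 3 * N) := by
    refine hMle.trans ?_
    refine mul_le_mul hsg ?_ (by positivity) (by positivity)
    calc (1 + (Q1 : ℝ) / s) ^ N ≤ Real.exp (η / 3) ^ N :=
          pow_le_pow_left₀ (by positivity) hq _
      _ = Real.exp (η / 3 * N) := by rw [← Real.exp_nat_mul]; congr 1; ring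
  set Good : Set T := {x | out p Z N x ≤ g} with hGood
  have hgc : ∀ x ∈ Good, code p Z lab1 N x ∈ CS := by
    intro x hx
    rw [hCS, Finset.mem_filter]
    refine ⟨Finset.mem_univ _, ?_⟩
    rw [card_code]
    exact hx
  set pick : Fin Q0 × (Fin N → Fin (Q1 + 1)) → T := fun a => if hx : ∃ x ∈ Good, lab0 ((p ^ N) • x) = a.1 ∧
    code p Z lab1 N x = a.2 then hx.choose else 0 with hpick
  refine ⟨((Finset.univ : Finset (Fin Q0)) ×ˢ CS).image pick, ?_, ?_⟩
  · have h1 : ((((Finset.univ : Finset (Fin Q0)) ×ˢ CS).image pick).card : ℝ) ≤ Q0 * CS.card := by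
      have h2 := Finset.card_image_le (s := (Finset.univ : Finset (Fin Q0)) ×ˢ CS) (f := pick)
      rw [Finset.card_product, Finset.card_univ, Fintype.card_fin] at h2
      exact_mod_cast h2
    refine h1.trans ?_
    calc (Q0 : ℝ) * CS.card ≤ Q0 * (s * Real.exp (η / 3 * N) * Real.exp (η / 3 * N)) :=
          mul_le_mul_of_nonneg_left hM2 (Nat.cast_nonneg _)
      _ = (Q0 * s) * (Real.exp (η / 3 * N) * Real.exp (η / 3 * N)) := by ring
      _ ≤ Real.exp (η / 3 * N) * (Real.exp (η / 3 * N) * Real.exp (η / 3 * N)) :=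
          mul_le_mul_of_nonneg_right hNb (by positivity)
      _ = Real.exp (η * N) := by
          rw [← Real.exp_add, ← Real.exp_add]; congr 1; ring
  · have hsub : {y | ∀ s ∈ ((Finset.univ : Finset (Fin Q0)) ×ˢ CS).image pick,
        1 / (p : ℝ) ^ N < ‖y - s‖} ⊆ {y | (g : ℝ) ≤ out p Z N y} := by
      intro x hx
      by_contra hcon
      have hxG : x ∈ Good := by
        simp only [mem_ofPred_eq, not_le] at hcon
        have : out p Z N x < g := by exact_mod_cast hcon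
        exact this.le
      have hex : ∃ x' ∈ Good, lab0 ((p ^ N) • x') = lab0 ((p ^ N) • x) ∧
          code p Z lab1 N x' = code p Z lab1 N x := ⟨x, hxG, rfl, rfl⟩
      have hp1 : pick (lab0 ((p ^ N) • x), code p Z lab1 N x) = hex.choose := by
        rw [hpick]
        simp only [dif_pos hex]
      have h1 := hx (pick (lab0 ((p ^ N) • x), code p Z lab1 N x))
        (Finset.mem_image_of_mem _ (Finset.mem_product.2 ⟨Finset.mem_univ _, hgc x hxG⟩))
      rw [hp1] at h1
      have hsp := hex.choose_spec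
      have h2 := same_code (by omega : 0 < p) (min_le_right _ _) hZ' hlab1 N x hex.choose (by
        rw [smul_sub]
        exact hlab0 _ _ hsp.2.1.symm) hsp.2.2.symm
      have h3 : η' / (p : ℝ) ^ N ≤ 1 / (p : ℝ) ^ N := by gcongr
      linarith
    have h1 := markov_gen p μ hinv hZm N (a := (g : ℝ))
    have h2 : (N : ℝ) * μ.real Zᶜ ≤ g * ε := by
      calc (N : ℝ) * μ.real Zᶜ ≤ N * (ε / b) := mul_le_mul_of_nonneg_left hZκ (Nat.cast_nonneg _)
        _ ≤ (b * g) * (ε / b) := mul_le_mul_of_nonneg_right hbg (by positivity)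
        _ = g * ε := by field_simp
    have h3 : μ.real {y | (g : ℝ) ≤ out p Z N y} ≤ ε :=
      le_of_mul_le_mul_left (h1.trans h2) hg0
    exact (measureReal_mono hsub (measure_ne_top _ _)).trans h3

end Pool.Agent.K3h28.FZ
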