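import Pool.Agent.K3h28.FZ.Ops

/-!
Good operations: locally Hoelder functions on open sets, and real roots of monic polynomials.
-/

set_option autoImplicit false

open Set Filter Topology MeasureTheory
open scoped NNReal ENNReal

namespace Pool.Agent.K3h28.FZ

/-- locally Hoelder continuous on an open set -/
def LocHoelder {k : ℕ} (U : Set (Fin k → ℝ)) (f : (Fin k → ℝ) → ℝ) : Prop :=
  IsOpen U ∧ ∀ x ∈ U, ∃ V ∈ 𝓝 x, ∃ C α : ℝ≥0, 0 < α ∧ HolderOnWith C α f V

lemma LocHoelder.unif {k : ℕ} {U : Set (Fin k → ℝ)} {f : (Fin k → ℝ) → ℝ} (h : LocHoelder U f)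
    {K : Set (Fin k → ℝ)} (hK : IsCompact K) (hKU : K ⊆ U) :
    ∃ C α δ : ℝ, 0 < C ∧ 0 < α ∧ 0 < δ ∧ δ ≤ 1 ∧ ∀ y ∈ K, ∀ z, dist y z ≤ δ →
      |f y - f z| ≤ C * dist y z ^ α := by
  refine IsCompact.induction_on (p := fun K => ∃ C α δ : ℝ, 0 < C ∧ 0 < α ∧ 0 < δ ∧ δ ≤ 1 ∧
    ∀ y ∈ K, ∀ z, dist y z ≤ δ → |f y - f z| ≤ C * dist y z ^ α) hK ?_ ?_ ?_ ?_
  · exact ⟨1, 1, 1, one_pos, one_pos, one_pos, le_rfl, by simp⟩
  · rintro s t hst ⟨C, α, δ, h1, h2, h3, h4, h5⟩
    exact ⟨C, α, δ, h1, h2, h3, h4, fun y hy => h5 y (hst hy)⟩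
  · rintro s t ⟨C, α, δ, h1, h2, h3, h4, h5⟩ ⟨C', α', δ', h1', h2', h3', h4', h5'⟩
    refine ⟨max C C', min α α', min δ δ', lt_max_of_lt_left h1, lt_min h2 h2', lt_min h3 h3',
      (min_le_left _ _).trans h4, ?_⟩
    rintro y (hy | hy) z hz
    · have hz1 : dist y z ≤ δ := hz.trans (min_le_left _ _)
      refine (h5 y hy z hz1).trans ?_
      refine mul_le_mul (le_max_left _ _) ?_ (by positivity) (by positivity)
      exact Real.rpow_le_rpow_of_exponent_ge' dist_nonneg (hz1.trans h4) (lt_min h2 h2').le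
        (min_le_left _ _)
    · have hz1 : dist y z ≤ δ' := hz.trans (min_le_right _ _)
      refine (h5' y hy z hz1).trans ?_
      refine mul_le_mul (le_max_right _ _) ?_ (by positivity) (by positivity)
      exact Real.rpow_le_rpow_of_exponent_ge' dist_nonneg (hz1.trans h4') (lt_min h2 h2').le
        (min_le_right _ _)
  · intro x hx
    obtain ⟨V, hV, C, α, hα, hH⟩ := h.2 x (hKU hx)
    obtain ⟨ε, hε, hball⟩ := Metric.mem_nhds_iff.1 hV
    refine ⟨Metric.ball x (ε / 2), mem_nhdsWithin_of_mem_nhds (Metric.ball_mem_nhds _ (by positivity)),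
      C + 1, α, min (ε / 2) 1 / 2, by positivity, by exact_mod_cast hα, by positivity, ?_, ?_⟩
    · have := min_le_right (ε / 2) 1
      linarith
    · intro y hy z hz
      have hyV : y ∈ V := hball (Metric.ball_subset_ball (by linarith) hy)
      have hzV : z ∈ V := by
        apply hball
        rw [Metric.mem_ball] at hy ⊢
        have h1 := dist_triangle z y x
        rw [dist_comm z y] at h1
        have h2 := min_le_left (ε / 2) 1
        linarith
      have h1 := hH.dist_le hyV hzV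
      rw [Real.dist_eq] at h1
      refine h1.trans ?_
      apply mul_le_mul_of_nonneg_right _ (by positivity)
      linarith

lemma LocHoelder.cont {k : ℕ} {U : Set (Fin k → ℝ)} {f : (Fin k → ℝ) → ℝ} (h : LocHoelder U f) :
    ContinuousOn f U := by
  intro x hx
  obtain ⟨V, hV, C, α, hα, hH⟩ := h.2 x hx
  exact ((hH.continuousOn hα).continuousAt hV).continuousWithinAt

lemma good_fun {k : ℕ} {U : Set (Fin k → ℝ)} {f : (Fin k → ℝ) → ℝ} (h : LocHoelder U f)
    {K : Set (Fin k → ℝ)} (hK : IsCompact K) (hKU : K ⊆ U) :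
    GoodOp (fun v x => v ∈ K ∧ x = f v) := by
  classical
  have hcont := h.cont.mono hKU
  refine ⟨?_, ?_, ?_⟩
  · have e : {p : (Fin k → ℝ) × ℝ | p.1 ∈ K ∧ p.2 = f p.1} = (fun v => (v, f v)) '' K := by
      ext ⟨v, x⟩
      constructor
      · rintro ⟨h1, h2⟩
        exact ⟨v, h1, by simp only [Prod.mk.injEq, true_and]; exact h2.symm⟩
      · rintro ⟨w, hw, hwx⟩
        simp only [Prod.mk.injEq] at hwx
        obtain ⟨rfl, rfl⟩ := hwx
        exact ⟨hw, rfl⟩
    rw [e]
    exact (hK.image_of_continuousOn (continuousOn_id.prodMk hcont)).isClosed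
  · intro B
    obtain ⟨B', hB'⟩ := (hK.image_of_continuousOn hcont).isBounded.subset_closedBall (0 : ℝ)
    refine ⟨B', ?_⟩
    rintro v x - ⟨h1, rfl⟩
    simpa using hB' ⟨v, h1, rfl⟩
  · intro B
    obtain ⟨C, α, δ, hC, hα, hδ, hδ1, hu⟩ := h.unif hK hKU
    refine ⟨C * 2 ^ α, α, δ / 2, 1, by positivity, hα, by positivity, ?_⟩
    intro r hr hr2 v _
    by_cases hex : ∃ w₀ ∈ K, ∀ i, |v i - w₀ i| ≤ r
    · obtain ⟨w₀, hw₀, hvw⟩ := hex
      refine ⟨{f w₀}, by simp, ?_⟩
      rintro w x - hw ⟨h1, rfl⟩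
      refine ⟨f w₀, by simp, ?_⟩
      have hd : dist w w₀ ≤ 2 * r := by
        rw [dist_pi_le_iff (by positivity)]
        intro i
        rw [Real.dist_eq]
        have e : w i - w₀ i = (v i - w₀ i) - (v i - w i) := by ring
        rw [e]
        exact (abs_sub _ _).trans (by linarith [hvw i, hw i])
      have h2 := hu w h1 w₀ (by linarith)
      refine h2.trans ?_
      rw [mul_assoc, ← Real.mul_rpow (by norm_num) hr.le]
      apply mul_le_mul_of_nonneg_left _ hC.le
      exact Real.rpow_le_rpow dist_nonneg hd hα.le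
    · refine ⟨∅, by simp, ?_⟩
      rintro w x - hw ⟨h1, -⟩
      exact absurd ⟨w, h1, hw⟩ hex

/-! ### roots of monic polynomials -/

/-- the value of the monic polynomial with coefficients `v` -/
def pval {d : ℕ} (v : Fin d → ℝ) (x : ℝ) : ℝ := x ^ d + ∑ i, v i * x ^ (i : ℕ)

/-- the complex polynomial -/
noncomputable def cpol {d : ℕ} (v : Fin d → ℝ) : Polynomial ℂ :=
  Polynomial.X ^ d + ∑ i, Polynomial.C ((v i : ℝ) : ℂ) * Polynomial.X ^ (i : ℕ)

lemma degree_sum_lt {d : ℕ} (v : Fin d → ℝ) :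
    (∑ i, Polynomial.C ((v i : ℝ) : ℂ) * Polynomial.X ^ (i : ℕ)).degree < (d : WithBot ℕ) := by
  refine (Polynomial.degree_sum_le _ _).trans_lt ?_
  rw [Finset.sup_lt_iff (by exact_mod_cast WithBot.bot_lt_coe d)]
  intro i _
  refine (Polynomial.degree_C_mul_X_pow_le _ _).trans_lt ?_
  exact_mod_cast i.2

lemma cpol_monic {d : ℕ} (v : Fin d → ℝ) : (cpol v).Monic :=
  Polynomial.monic_X_pow_add (degree_sum_lt v)

lemma cpol_natDegree {d : ℕ} (v : Fin d → ℝ) : (cpol v).natDegree = d := by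
  unfold cpol
  rw [Polynomial.natDegree_eq_of_degree_eq_some]
  rw [Polynomial.degree_add_eq_left_of_degree_lt, Polynomial.degree_X_pow]
  rw [Polynomial.degree_X_pow]
  exact degree_sum_lt v

lemma cpol_eval {d : ℕ} (v : Fin d → ℝ) (x : ℝ) : (cpol v).eval (x : ℂ) = (pval v x : ℂ) := by
  unfold cpol pval
  rw [Polynomial.eval_add, Polynomial.eval_finsetSum]
  push_cast
  simp

lemma prod_lower (x : ℂ) {ρ : ℝ} (hρ : 0 ≤ ρ) (s : Multiset ℂ) (h : ∀ ζ ∈ s, ρ ≤ ‖x - ζ‖) :
    ρ ^ (Multiset.card s) ≤ ‖(s.map (x - ·)).prod‖ := by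
  induction s using Multiset.induction_on with
  | empty => simp
  | cons a s ih =>
    rw [Multiset.card_cons, Multiset.map_cons, Multiset.prod_cons, norm_mul, pow_succ']
    have h1 := ih fun ζ hζ => h ζ (Multiset.mem_cons_of_mem hζ)
    have h2 := h a (Multiset.mem_cons_self a s)
    exact mul_le_mul h2 h1 (by positivity) (norm_nonneg _)

lemma root_close {d : ℕ} (v : Fin d → ℝ) (x : ℝ) {ρ : ℝ} (hρ : 0 ≤ ρ) (h : |pval v x| < ρ ^ d) :
    ∃ z ∈ (cpol v).roots.toFinset.image Complex.re, |x - z| ≤ ρ := by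
  classical
  by_contra hcon
  push Not at hcon
  have hs : (cpol v).Splits := IsAlgClosed.splits _
  have h1 := hs.eval_eq_prod_roots_of_monic (cpol_monic v) (x : ℂ)
  have h2 : Multiset.card (cpol v).roots = d := by
    rw [← hs.natDegree_eq_card_roots, cpol_natDegree]
  have h3 : ∀ ζ ∈ (cpol v).roots, ρ ≤ ‖(x : ℂ) - ζ‖ := by
    intro ζ hζ
    have h4 := hcon ζ.re (Finset.mem_image_of_mem _ (Multiset.mem_toFinset.2 hζ))
    refine h4.le.trans ?_
    have h5 := Complex.abs_re_le_norm ((x : ℂ) - ζ)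
    simpa using h5
  have h4 := prod_lower (x : ℂ) hρ _ h3
  rw [← h1, h2, cpol_eval, Complex.norm_real, Real.norm_eq_abs] at h4
  linarith

lemma pval_bound {d : ℕ} {v : Fin d → ℝ} {x B : ℝ} (hB : 0 ≤ B) (hv : ∀ i, |v i| ≤ B)
    (h : pval v x = 0) : |x| ≤ 1 + d * B := by
  by_contra hcon
  push Not at hcon
  have hdB : 0 ≤ (d : ℝ) * B := by positivity
  have hx1 : 1 < |x| := by linarith
  rcases Nat.eq_zero_or_pos d with h0 | hd
  · subst h0
    unfold pval at h
    simp at h
  have h1 : x ^ d = -∑ i, v i * x ^ (i : ℕ) := by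
    unfold pval at h
    linarith
  have h2 : |x| ^ d ≤ ∑ i : Fin d, B * |x| ^ (d - 1) := by
    rw [← abs_pow, h1, abs_neg]
    refine (Finset.abs_sum_le_sum_abs _ _).trans (Finset.sum_le_sum fun i _ => ?_)
    rw [abs_mul, abs_pow]
    refine mul_le_mul (hv i) ?_ (by positivity) hB
    exact pow_le_pow_right₀ hx1.le (by omega)
  rw [Finset.sum_const, Finset.card_univ, Fintype.card_fin, nsmul_eq_mul] at h2
  have h3 : |x| ^ d = |x| * |x| ^ (d - 1) := by
    rw [← pow_succ']; congr 1; omega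
  rw [h3] at h2
  have h4 : 0 < |x| ^ (d - 1) := by positivity
  have h5 : |x| ≤ d * B := by
    by_contra h6
    push Not at h6
    have := mul_lt_mul_of_pos_right h6 h4
    nlinarith
  linarith

lemma good_root (d : ℕ) : GoodOp (fun (v : Fin d → ℝ) x => pval v x = 0) := by
  classical
  refine ⟨?_, ?_, ?_⟩
  · refine isClosed_eq ?_ continuous_const
    unfold pval
    fun_prop
  · intro B
    refine ⟨1 + d * max B 0, fun v x hv hx => ?_⟩
    exact pval_bound (le_max_right _ _) (fun i => (hv i).trans (le_max_left _ _)) hx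
  · intro B
    rcases Nat.eq_zero_or_pos d with h0 | hd
    · subst h0
      refine ⟨1, 1, 1, 0, one_pos, one_pos, one_pos, fun r _ _ v _ => ⟨∅, by simp, ?_⟩⟩
      intro w x _ _ hx
      unfold pval at hx
      simp at hx
    set B' : ℝ := 1 + d * max B 0 with hB'
    have hm : 0 ≤ max B 0 := le_max_right _ _
    have hB'1 : 1 ≤ B' := by
      have : 0 ≤ (d : ℝ) * max B 0 := by positivity
      linarith
    set C : ℝ := d * B' ^ d + 1 with hC
    have hdR : (0 : ℝ) < d := by exact_mod_cast hd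
    have hC1 : 1 ≤ C := by
      have : 0 ≤ (d : ℝ) * B' ^ d := by positivity
      linarith
    refine ⟨C, 1 / d, 1, d, by positivity, by positivity, one_pos, ?_⟩
    intro r hr _ v _
    refine ⟨(cpol v).roots.toFinset.image Complex.re, ?_, ?_⟩
    · refine Finset.card_image_le.trans ((Multiset.toFinset_card_le _).trans ?_)
      exact (Polynomial.card_roots' _).trans (cpol_natDegree v).le
    · intro w x hw hvw hx
      apply root_close v x (by positivity)
      have hxB : |x| ≤ B' := pval_bound hm (fun i => (hw i).trans (le_max_left _ _)) hx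
      have e1 : pval v x = ∑ i, (v i - w i) * x ^ (i : ℕ) := by
        have : pval v x = pval v x - pval w x := by rw [hx, sub_zero]
        rw [this]
        unfold pval
        rw [add_sub_add_left_eq_sub, ← Finset.sum_sub_distrib]
        refine Finset.sum_congr rfl fun i _ => by ring
      have h2 : |pval v x| ≤ d * (r * B' ^ d) := by
        rw [e1]
        refine (Finset.abs_sum_le_sum_abs _ _).trans ?_
        have h3 : ∀ i : Fin d, |(v i - w i) * x ^ (i : ℕ)| ≤ r * B' ^ d := by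
          intro i
          rw [abs_mul, abs_pow]
          refine mul_le_mul (hvw i) ?_ (by positivity) hr.le
          calc |x| ^ (i : ℕ) ≤ B' ^ (i : ℕ) := pow_le_pow_left₀ (abs_nonneg _) hxB _
            _ ≤ B' ^ d := pow_le_pow_right₀ hB'1 i.2.le
        refine (Finset.sum_le_sum fun i _ => h3 i).trans ?_
        rw [Finset.sum_const, Finset.card_univ, Fintype.card_fin, nsmul_eq_mul]
      have h3 : (C * r ^ (1 / (d : ℝ))) ^ d = C ^ d * r := by
        rw [mul_pow, ← Real.rpow_natCast (r ^ (1 / (d : ℝ))), ← Real.rpow_mul hr.le,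
          one_div, inv_mul_cancel₀ hdR.ne', Real.rpow_one]
      rw [h3]
      have h4 : C ≤ C ^ d := le_self_pow₀ hC1 hd.ne'
      have h5 : C * r ≤ C ^ d * r := mul_le_mul_of_nonneg_right h4 hr.le
      have h6 : C * r = d * (r * B' ^ d) + r := by rw [hC]; ring
      linarith

end Pool.Agent.K3h28.FZ
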