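import Pool.Agent.K3h28.FZ.Thin

/-!
Images of thin compact sets under multivalued operations with Hoelder estimates.
-/

set_option autoImplicit false

open Set Filter Topology MeasureTheory
open scoped NNReal ENNReal

namespace Pool.Agent.K3h28.FZ

/-- multivalued operations with closed graph, bounded on bounded sets, with Hoelder estimates -/
structure GoodOp {k : ℕ} (rel : (Fin k → ℝ) → ℝ → Prop) : Prop where
  closed : IsClosed {p : (Fin k → ℝ) × ℝ | rel p.1 p.2}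
  bdd : ∀ B : ℝ, ∃ B' : ℝ, ∀ v x, (∀ i, |v i| ≤ B) → rel v x → |x| ≤ B'
  est : ∀ B : ℝ, ∃ C α r₀ : ℝ, ∃ d : ℕ, 0 < C ∧ 0 < α ∧ 0 < r₀ ∧ ∀ r, 0 < r → r ≤ r₀ →
    ∀ v : Fin k → ℝ, (∀ i, |v i| ≤ B) → ∃ Z : Finset ℝ, Z.card ≤ d ∧
      ∀ w x, (∀ i, |w i| ≤ B) → (∀ i, |v i - w i| ≤ r) → rel w x → ∃ z ∈ Z, |x - z| ≤ C * r ^ α

/-- image of a set under a multivalued operation -/
def Im {k : ℕ} (rel : (Fin k → ℝ) → ℝ → Prop) (A : Set ℝ) : Set ℝ :=
  {x | ∃ v : Fin k → ℝ, (∀ i, v i ∈ A) ∧ rel v x}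

lemma GoodOp.im_compact {k : ℕ} {rel : (Fin k → ℝ) → ℝ → Prop} (h : GoodOp rel) {A : Set ℝ}
    (hA : IsCompact A) : IsCompact (Im rel A) := by
  obtain ⟨B, hB⟩ := hA.isBounded.subset_closedBall (0 : ℝ)
  obtain ⟨B', hB'⟩ := h.bdd B
  have hB2 : ∀ x ∈ A, |x| ≤ B := fun x hx => by simpa using hB hx
  have h1 : IsCompact ((univ.pi fun _ : Fin k => A) ×ˢ (Metric.closedBall (0 : ℝ) B')) :=
    (isCompact_univ_pi fun _ => hA).prod (isCompact_closedBall _ _)
  have h2 := (h1.inter_right h.closed).image continuous_snd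
  have e : Im rel A = Prod.snd '' ((univ.pi fun _ : Fin k => A) ×ˢ (Metric.closedBall (0 : ℝ) B') ∩
      {p : (Fin k → ℝ) × ℝ | rel p.1 p.2}) := by
    ext x
    constructor
    · rintro ⟨v, hv, hx⟩
      refine ⟨(v, x), ⟨⟨fun i _ => hv i, ?_⟩, hx⟩, rfl⟩
      have := hB' v x (fun i => hB2 _ (hv i)) hx
      simpa using this
    · rintro ⟨⟨v, y⟩, ⟨⟨h1, -⟩, h3⟩, rfl⟩
      exact ⟨v, fun i => h1 i (mem_univ _), h3⟩
  rw [e]
  exact h2

lemma GoodOp.im_thin {R : ℕ → ℝ} (hR : ∀ i : ℕ, ((i : ℝ) + 1) ^ 2 ≤ R i) {k : ℕ}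
    {rel : (Fin k → ℝ) → ℝ → Prop} (h : GoodOp rel) {A : Set ℝ} (hA : IsCompact A)
    (hT : Thin R A) : Thin R (Im rel A) := by
  classical
  obtain ⟨B, hB⟩ := hA.isBounded.subset_closedBall (0 : ℝ)
  have hB2 : ∀ x ∈ A, |x| ≤ B := fun x hx => by simpa using hB hx
  obtain ⟨C, α, r₀, d, hC, hα, hr₀, hest⟩ := h.est B
  obtain ⟨K, hK, h1⟩ := hT
  have hK0 : 0 < K := by linarith
  have hRt := R_atTop hR
  have t1 : Tendsto (fun i : ℕ => 2 * Real.exp (-(R i / K))) atTop (𝓝 (2 * 0)) :=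
    (Real.tendsto_exp_neg_atTop_nhds_zero.comp (hRt.atTop_div_const hK0)).const_mul _
  rw [mul_zero] at t1
  have t2 : Tendsto (fun i : ℕ => Real.exp (α / (2 * K) * R i)) atTop atTop :=
    Real.tendsto_exp_atTop.comp (hRt.const_mul_atTop (by positivity))
  refine ⟨k * K + d + 2 * K / α + 1, ?_, ?_⟩
  · have : 0 ≤ (k : ℝ) * K + d + 2 * K / α := by positivity
    linarith
  filter_upwards [h1, t1.eventually (gt_mem_nhds hr₀), t2.eventually_ge_atTop (C * 2 ^ α)]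
    with i hi1 hi2 hi3
  obtain ⟨S, hS1, hS2, hS3⟩ := hi1.inner
  have hRp := R_pos hR i
  have hM := le_quot hR i
  have hi0 : (0 : ℝ) ≤ i := Nat.cast_nonneg i
  set M := R i / (i + 1) with hMd
  have hM1 : 1 ≤ M := by linarith
  set r := 2 * Real.exp (-(R i / K)) with hr
  have hr0 : 0 < r := by positivity
  have hch : ∀ v : Fin k → ℝ, ∃ Z : Finset ℝ, (∀ i, |v i| ≤ B) → (Z.card ≤ d ∧
      ∀ w x, (∀ i, |w i| ≤ B) → (∀ i, |v i - w i| ≤ r) → rel w x →
        ∃ z ∈ Z, |x - z| ≤ C * r ^ α) := by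
    intro v
    by_cases hv : ∀ i, |v i| ≤ B
    · obtain ⟨Z, h2, h3⟩ := hest r hr0 hi2.le v hv
      exact ⟨Z, fun _ => ⟨h2, h3⟩⟩
    · exact ⟨∅, fun h => absurd h hv⟩
  choose Z hZ using hch
  refine ⟨(Fintype.piFinset fun _ : Fin k => S).biUnion Z, ?_, ?_⟩
  · have c1 : ((Fintype.piFinset fun _ : Fin k => S).biUnion Z).card ≤ S.card ^ k * d := by
      refine (Finset.card_biUnion_le_card_mul _ _ d fun v hv => ?_).trans (le_of_eq ?_)
      · rw [Fintype.mem_piFinset] at hv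
        exact (hZ v fun i => hB2 _ (hS2 _ (hv i))).1
      · rw [Fintype.card_piFinset_const]
    have c2 : (((Fintype.piFinset fun _ : Fin k => S).biUnion Z).card : ℝ) ≤
        (S.card : ℝ) ^ k * d := by exact_mod_cast c1
    have c3 : (S.card : ℝ) ^ k ≤ Real.exp (k * (K * M)) := by
      rw [Real.exp_nat_mul]
      exact pow_le_pow_left₀ (Nat.cast_nonneg _) hS1 k
    have c4 : (d : ℝ) ≤ Real.exp (d * M) := by
      have h5 := Real.add_one_le_exp ((d : ℝ) * M)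
      have h6 : (d : ℝ) * 1 ≤ d * M := mul_le_mul_of_nonneg_left hM1 (Nat.cast_nonneg d)
      linarith
    calc (((Fintype.piFinset fun _ : Fin k => S).biUnion Z).card : ℝ) ≤ (S.card : ℝ) ^ k * d := c2
      _ ≤ Real.exp (k * (K * M)) * Real.exp (d * M) :=
          mul_le_mul c3 c4 (Nat.cast_nonneg d) (Real.exp_pos _).le
      _ = Real.exp ((k * K + d) * M) := by rw [← Real.exp_add]; congr 1; ring
      _ ≤ Real.exp ((k * K + d + 2 * K / α + 1) * M) := by
          apply Real.exp_le_exp.2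
          apply mul_le_mul_of_nonneg_right _ (by linarith)
          have : 0 ≤ 2 * K / α := by positivity
          linarith
  · rintro x ⟨w, hw, hwx⟩
    have hv : ∀ j, ∃ s ∈ S, |w j - s| ≤ r := fun j => hS3 _ (hw j)
    choose v hvS hvr using hv
    have hvB : ∀ j, |v j| ≤ B := fun j => hB2 _ (hS2 _ (hvS j))
    obtain ⟨z, hz, hxz⟩ := (hZ v hvB).2 w x (fun j => hB2 _ (hw j))
      (fun j => by rw [abs_sub_comm]; exact hvr j) hwx
    refine ⟨z, Finset.mem_biUnion.2 ⟨v, Fintype.mem_piFinset.2 hvS, hz⟩, hxz.trans ?_⟩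
    have e1 : r ^ α = 2 ^ α * Real.exp (-(2 * (α / (2 * K) * R i))) := by
      rw [hr, Real.mul_rpow (by norm_num) (Real.exp_pos _).le, ← Real.exp_mul]
      congr 2
      field_simp
    rw [e1]
    have e2 : Real.exp (-(2 * (α / (2 * K) * R i))) =
        (Real.exp (α / (2 * K) * R i))⁻¹ * (Real.exp (α / (2 * K) * R i))⁻¹ := by
      rw [← Real.exp_neg, ← Real.exp_add]; congr 1; ring
    have hE : 0 < Real.exp (α / (2 * K) * R i) := Real.exp_pos _
    have e3 : C * (2 ^ α * Real.exp (-(2 * (α / (2 * K) * R i)))) ≤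
        (Real.exp (α / (2 * K) * R i))⁻¹ := by
      rw [e2]
      have : C * 2 ^ α * (Real.exp (α / (2 * K) * R i))⁻¹ ≤ 1 := by
        rw [← div_eq_mul_inv, div_le_one hE]
        exact hi3
      calc C * (2 ^ α * ((Real.exp (α / (2 * K) * R i))⁻¹ * (Real.exp (α / (2 * K) * R i))⁻¹))
          = C * 2 ^ α * (Real.exp (α / (2 * K) * R i))⁻¹ * (Real.exp (α / (2 * K) * R i))⁻¹ := by
            ring
        _ ≤ 1 * (Real.exp (α / (2 * K) * R i))⁻¹ :=
            mul_le_mul_of_nonneg_right this (inv_pos.2 hE).le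
        _ = _ := one_mul _
    refine e3.trans ?_
    rw [← Real.exp_neg]
    apply Real.exp_le_exp.2
    apply neg_le_neg
    have h7 : α / (2 * K) * R i = R i / (2 * K / α) := by field_simp
    rw [h7]
    refine div_le_div_of_nonneg_left hRp.le (by positivity) ?_
    have : 0 ≤ (k : ℝ) * K + d := by positivity
    linarith

end Pool.Agent.K3h28.FZ
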