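import Pool.Agent.K3h28.FZ.Fine
import Pool.Agent.W764.SH.Decomp

/-!
Covers of the part of an invariant measure which is not a multiple of Lebesgue measure.
-/

set_option autoImplicit false

open MeasureTheory Filter Topology Set
open scoped ENNReal

namespace Pool.Agent.K3h28.FZ

open Pool.Agent.W764.FB

theorem singular_cover {p q : ℕ} (hp : 2 ≤ p) (hq : 2 ≤ q) (hpq : Nat.Coprime p q) (μ : Measure T)
    [IsProbabilityMeasure μ] (hip : MeasurePreserving (fun x : T => p • x) μ μ)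
    (hiq : MeasurePreserving (fun x : T => q • x) μ μ) :
    ∃ D : Set T, MeasurableSet D ∧ μ.restrict D = μ D • (volume : Measure T) ∧
      ∀ ε η : ℝ, 0 < ε → 0 < η → ∃ R₀ : ℝ, ∀ R, R₀ ≤ R → ∃ S : Finset T,
        (S.card : ℝ) ≤ Real.exp (η * R) ∧
        μ (Dᶜ ∩ {y | ∀ s ∈ S, Real.exp (-R) < ‖y - s‖}) ≤ ENNReal.ofReal ε := by
  obtain ⟨D, hDm, hDp, hDq, hD, B, hBm, hB0, hB⟩ :=
    Pool.Agent.W764.SH.decomp hp hq hpq μ hip hiq
  refine ⟨D, hDm, hD, ?_⟩
  rcases eq_or_ne (μ Dᶜ) 0 with h0 | h0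
  · intro ε η hε hη
    refine ⟨0, fun R hR => ⟨∅, ?_, ?_⟩⟩
    · simp only [Finset.card_empty, Nat.cast_zero]
      positivity
    · rw [measure_mono_null inter_subset_left h0]
      exact zero_le
  · set ν : Measure T := (μ Dᶜ)⁻¹ • μ.restrict Dᶜ with hν
    have hν1 : IsProbabilityMeasure ν := by
      refine ⟨?_⟩
      rw [hν, Measure.smul_apply, Measure.restrict_apply_univ, smul_eq_mul,
        ENNReal.inv_mul_cancel h0 (measure_ne_top _ _)]
    have hmp : MeasurePreserving (fun x : T => p • x) ν ν := by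
      have h3 := Pool.Agent.W764.SH.restrict_mp hip hDm.compl (hDp.mono fun x hx => not_congr hx)
      refine ⟨h3.measurable, ?_⟩
      rw [hν, Measure.map_smul, h3.map_eq]
    have hinj : EssInj p ν := by
      refine ⟨B, hBm, ?_, hB⟩
      rw [hν, Measure.smul_apply, smul_eq_mul, Measure.restrict_apply hBm.compl]
      have : Bᶜ ∩ Dᶜ = Dᶜ \ B := by
        ext x; simp only [mem_inter_iff, mem_compl_iff, Set.mem_sdiff]; tauto
      rw [this, hB0, mul_zero]
    intro ε η hε hη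
    have hlp : 0 < Real.log p := Real.log_pos (by exact_mod_cast (by omega : 1 < p))
    have hpR : (0 : ℝ) < p := by exact_mod_cast (by omega : 0 < p)
    obtain ⟨N₀, hN₀⟩ := fine_cover hp ν hmp hinj hε (η := η * Real.log p / 2) (by positivity)
    refine ⟨max (Real.log p) (N₀ * Real.log p), fun R hR => ?_⟩
    have hR1 : Real.log p ≤ R := (le_max_left _ _).trans hR
    have hR2 : N₀ * Real.log p ≤ R := (le_max_right _ _).trans hR
    have hR0 : 0 < R := by linarith
    set N : ℕ := ⌈R / Real.log p⌉₊ with hN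
    have hN1 : R / Real.log p ≤ N := Nat.le_ceil _
    have hN2 : (N : ℝ) < R / Real.log p + 1 := Nat.ceil_lt_add_one (by positivity)
    have hNN : N₀ ≤ N := by
      have h1 : (N₀ : ℝ) ≤ R / Real.log p := by rwa [le_div_iff₀ hlp]
      exact_mod_cast h1.trans hN1
    obtain ⟨S, hS1, hS2⟩ := hN₀ N hNN
    refine ⟨S, hS1.trans ?_, ?_⟩
    · apply Real.exp_le_exp.2
      have h1 : (N : ℝ) * Real.log p ≤ R + Real.log p := by
        have h2 := mul_le_mul_of_nonneg_right hN2.le hlp.le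
        rw [add_mul, one_mul, div_mul_cancel₀ _ hlp.ne'] at h2
        exact h2
      have h3 : (N : ℝ) * Real.log p ≤ 2 * R := by linarith
      have h4 := mul_le_mul_of_nonneg_left h3 hη.le
      linarith
    · have h1 : 1 / (p : ℝ) ^ N ≤ Real.exp (-R) := by
        have h2 : Real.exp R ≤ (p : ℝ) ^ N := by
          rw [← Real.le_log_iff_exp_le (by positivity), Real.log_pow]
          rwa [div_le_iff₀ hlp] at hN1
        rw [Real.exp_neg, one_div]
        exact inv_anti₀ (Real.exp_pos _) h2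
      have h2 : μ (Dᶜ ∩ {y | ∀ s ∈ S, Real.exp (-R) < ‖y - s‖}) ≤
          ν {y | ∀ s ∈ S, 1 / (p : ℝ) ^ N < ‖y - s‖} := by
        rw [hν, Measure.smul_apply, smul_eq_mul, Measure.restrict_apply' hDm.compl, inter_comm]
        have h3 : μ ({y | ∀ s ∈ S, Real.exp (-R) < ‖y - s‖} ∩ Dᶜ) ≤
            μ ({y | ∀ s ∈ S, 1 / (p : ℝ) ^ N < ‖y - s‖} ∩ Dᶜ) := by
          apply measure_mono
          rintro y ⟨hy1, hy2⟩
          exact ⟨fun s hs => h1.trans_lt (hy1 s hs), hy2⟩
        refine h3.trans ?_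
        have h4 : 1 ≤ (μ Dᶜ)⁻¹ := ENNReal.one_le_inv.2 prob_le_one
        calc μ ({y | ∀ s ∈ S, 1 / (p : ℝ) ^ N < ‖y - s‖} ∩ Dᶜ)
            = 1 * μ ({y | ∀ s ∈ S, 1 / (p : ℝ) ^ N < ‖y - s‖} ∩ Dᶜ) := (one_mul _).symm
          _ ≤ _ := mul_le_mul_left h4 _
      refine h2.trans ?_
      rw [← ENNReal.ofReal_toReal (measure_ne_top ν _)]
      exact ENNReal.ofReal_le_ofReal hS2

end Pool.Agent.K3h28.FZ
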