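import Mathlib

/-!
Thin sets of real numbers: sets with few balls at the scales `exp (- R i)`, and their images under
multivalued Hoelder continuous maps.
-/

set_option autoImplicit false

open Set Filter Topology MeasureTheory
open scoped NNReal ENNReal

namespace Pool.Agent.K3h28.FZ

/-- `A` is covered by `N` intervals of radius `r` -/
def Cov (N r : ℝ) (A : Set ℝ) : Prop :=
  ∃ S : Finset ℝ, (S.card : ℝ) ≤ N ∧ ∀ x ∈ A, ∃ s ∈ S, |x - s| ≤ r

lemma Cov.mono {N N' r r' : ℝ} {A A' : Set ℝ} (h : Cov N r A) (hN : N ≤ N') (hr : r ≤ r')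
    (hA : A' ⊆ A) : Cov N' r' A' := by
  obtain ⟨S, h1, h2⟩ := h
  refine ⟨S, h1.trans hN, fun x hx => ?_⟩
  obtain ⟨s, hs, h3⟩ := h2 x (hA hx)
  exact ⟨s, hs, h3.trans hr⟩

lemma Cov.inner {N r : ℝ} {A : Set ℝ} (h : Cov N r A) :
    ∃ S : Finset ℝ, (S.card : ℝ) ≤ N ∧ (∀ s ∈ S, s ∈ A) ∧ ∀ x ∈ A, ∃ s ∈ S, |x - s| ≤ 2 * r := by
  classical
  obtain ⟨S, h1, h2⟩ := h
  set g : ℝ → ℝ := fun s => if h : ∃ a ∈ A, |a - s| ≤ r then h.choose else 0 with hg
  have hg1 : ∀ s, (∃ a ∈ A, |a - s| ≤ r) → g s ∈ A ∧ |g s - s| ≤ r := by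
    intro s hs
    have : g s = hs.choose := by simp only [hg]; rw [dif_pos hs]
    rw [this]
    exact hs.choose_spec
  refine ⟨(S.filter fun s => ∃ a ∈ A, |a - s| ≤ r).image g, ?_, ?_, ?_⟩
  · refine le_trans ?_ h1
    exact_mod_cast Finset.card_image_le.trans (Finset.card_filter_le _ _)
  · intro s hs
    rw [Finset.mem_image] at hs
    obtain ⟨t, ht, rfl⟩ := hs
    rw [Finset.mem_filter] at ht
    exact (hg1 t ht.2).1
  · intro x hx
    obtain ⟨s, hs, h3⟩ := h2 x hx
    have h4 : ∃ a ∈ A, |a - s| ≤ r := ⟨x, hx, h3⟩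
    refine ⟨g s, Finset.mem_image_of_mem _ (Finset.mem_filter.2 ⟨hs, h4⟩), ?_⟩
    have h5 := (hg1 s h4).2
    have : x - g s = (x - s) - (g s - s) := by ring
    rw [this]
    exact (abs_sub _ _).trans (by linarith)

/-- thin sets with respect to the scales `exp (- R i)` -/
def Thin (R : ℕ → ℝ) (A : Set ℝ) : Prop :=
  ∃ K : ℝ, 1 ≤ K ∧ ∀ᶠ i : ℕ in atTop,
    Cov (Real.exp (K * (R i / (i + 1)))) (Real.exp (-(R i / K))) A

section

variable {R : ℕ → ℝ} (hR : ∀ i : ℕ, ((i : ℝ) + 1) ^ 2 ≤ R i)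

include hR in
lemma le_quot (i : ℕ) : (i : ℝ) + 1 ≤ R i / (i + 1) := by
  have h1 : (0 : ℝ) < (i : ℝ) + 1 := by positivity
  rw [le_div_iff₀ h1]
  have := hR i
  nlinarith

include hR in
lemma R_pos (i : ℕ) : 0 < R i := by
  have h1 : (0 : ℝ) < ((i : ℝ) + 1) ^ 2 := by positivity
  exact h1.trans_le (hR i)

include hR in
lemma quot_atTop : Tendsto (fun i : ℕ => R i / ((i : ℝ) + 1)) atTop atTop := by
  refine tendsto_atTop_mono (le_quot hR) ?_
  exact tendsto_atTop_add_const_right _ _ tendsto_natCast_atTop_atTop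

include hR in
lemma R_atTop : Tendsto R atTop atTop := by
  refine tendsto_atTop_mono (fun i => ?_) (quot_atTop hR)
  have h1 : (0 : ℝ) < (i : ℝ) + 1 := by positivity
  rw [div_le_iff₀ h1]
  have := R_pos hR i
  have h2 : (0 : ℝ) ≤ i := Nat.cast_nonneg i
  nlinarith

lemma Thin.mono {A B : Set ℝ} (h : Thin R A) (hB : B ⊆ A) : Thin R B := by
  obtain ⟨K, h1, h2⟩ := h
  exact ⟨K, h1, h2.mono fun i hi => hi.mono le_rfl le_rfl hB⟩

lemma thin_empty : Thin R ∅ := by
  refine ⟨1, le_rfl, Eventually.of_forall fun i => ⟨∅, ?_, by simp⟩⟩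
  simp only [Finset.card_empty, Nat.cast_zero]
  positivity

include hR in
lemma Thin.union {A B : Set ℝ} (hA : Thin R A) (hB : Thin R B) : Thin R (A ∪ B) := by
  obtain ⟨K, hK, h1⟩ := hA
  obtain ⟨L, hL, h2⟩ := hB
  refine ⟨K + L, by linarith, ?_⟩
  filter_upwards [h1, h2] with i hi1 hi2
  obtain ⟨S, hS1, hS2⟩ := hi1
  obtain ⟨S', hS1', hS2'⟩ := hi2
  have hRp := R_pos hR i
  have hM := le_quot hR i
  have hi0 : (0 : ℝ) ≤ i := Nat.cast_nonneg i
  set M := R i / (i + 1) with hMd
  have hM1 : 1 ≤ M := by linarith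
  classical
  refine ⟨S ∪ S', ?_, ?_⟩
  · have h3 : ((S ∪ S').card : ℝ) ≤ S.card + S'.card := by exact_mod_cast Finset.card_union_le _ _
    have h4 : Real.exp (K * M) + Real.exp (L * M) ≤ Real.exp ((K + L) * M) := by
      have e : Real.exp ((K + L) * M) = Real.exp (K * M) * Real.exp (L * M) := by
        rw [← Real.exp_add]; congr 1; ring
      rw [e]
      have a1 : 2 ≤ Real.exp (K * M) := by
        have := Real.add_one_le_exp (K * M)
        nlinarith
      have a2 : 2 ≤ Real.exp (L * M) := by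
        have := Real.add_one_le_exp (L * M)
        nlinarith
      nlinarith
    linarith
  · intro x hx
    rcases hx with hx | hx
    · obtain ⟨s, hs, h3⟩ := hS2 x hx
      refine ⟨s, Finset.mem_union_left _ hs, h3.trans ?_⟩
      apply Real.exp_le_exp.2
      apply neg_le_neg
      exact div_le_div_of_nonneg_left hRp.le (by linarith) (by linarith)
    · obtain ⟨s, hs, h3⟩ := hS2' x hx
      refine ⟨s, Finset.mem_union_right _ hs, h3.trans ?_⟩
      apply Real.exp_le_exp.2
      apply neg_le_neg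
      exact div_le_div_of_nonneg_left hRp.le (by linarith) (by linarith)

include hR in
lemma thin_biUnion {ι : Type*} (s : Finset ι) (A : ι → Set ℝ) (h : ∀ i ∈ s, Thin R (A i)) :
    Thin R (⋃ i ∈ s, A i) := by
  classical
  induction s using Finset.induction_on with
  | empty => simpa using thin_empty
  | insert a s ha ih =>
    rw [Finset.set_biUnion_insert]
    exact (h a (Finset.mem_insert_self _ _)).union hR (ih fun i hi => h i (Finset.mem_insert_of_mem hi))

/-- powers of a thin set have Hausdorff dimension zero -/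
theorem thin_dimH_pow (hR : ∀ i : ℕ, ((i : ℝ) + 1) ^ 2 ≤ R i) {A : Set ℝ} (hA : Thin R A) (k : ℕ) :
    dimH {v : Fin k → ℝ | ∀ i, v i ∈ A} = 0 := by
  classical
  obtain ⟨K, hK, h1⟩ := hA
  by_contra hne
  have hpos : 0 < dimH {v : Fin k → ℝ | ∀ i, v i ∈ A} := pos_iff_ne_zero.2 hne
  obtain ⟨d, hd0, hd⟩ := ENNReal.lt_iff_exists_nnreal_btwn.1 hpos
  have hd0' : (0 : ℝ) < d := by exact_mod_cast hd0
  have hinf := hausdorffMeasure_of_lt_dimH hd
  set S : ℕ → Finset ℝ := fun i =>
    if h : Cov (Real.exp (K * (R i / (i + 1)))) (Real.exp (-(R i / K))) A then h.choose else ∅ with hS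
  have hS1 : ∀ᶠ i : ℕ in atTop, ((S i).card : ℝ) ≤ Real.exp (K * (R i / (i + 1))) ∧
      ∀ x ∈ A, ∃ s ∈ S i, |x - s| ≤ Real.exp (-(R i / K)) := by
    filter_upwards [h1] with i hi
    have : S i = hi.choose := by simp only [hS]; rw [dif_pos hi]
    rw [this]
    exact hi.choose_spec
  have hRt := R_atTop hR
  have hrad : Tendsto (fun i : ℕ => Real.exp (-(R i / K))) atTop (𝓝 0) :=
    Real.tendsto_exp_neg_atTop_nhds_zero.comp (hRt.atTop_div_const (by linarith))
  have hdiam : ∀ (i : ℕ) (c : Fin k → ℝ),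
      Metric.ediam (Metric.closedBall c (Real.exp (-(R i / K)))) ≤
        ENNReal.ofReal (2 * Real.exp (-(R i / K))) := by
    intro i c
    rw [← Metric.closedEBall_ofReal (Real.exp_pos _).le, ENNReal.ofReal_mul (by norm_num)]
    refine Metric.ediam_closedEBall_le.trans (le_of_eq ?_)
    simp
  have key := Measure.hausdorffMeasure_le_liminf_sum (X := Fin k → ℝ) (d : ℝ)
    {v : Fin k → ℝ | ∀ i, v i ∈ A} (l := (atTop : Filter ℕ))
    (β := ℕ) (ι := fun i => {s // s ∈ Fintype.piFinset fun _ : Fin k => S i})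
    (fun i => ENNReal.ofReal (2 * Real.exp (-(R i / K)))) (by
      have := ENNReal.tendsto_ofReal (hrad.const_mul 2)
      rwa [mul_zero, ENNReal.ofReal_zero] at this)
    (fun i s => Metric.closedBall (s : Fin k → ℝ) (Real.exp (-(R i / K))))
    (Eventually.of_forall fun i s => hdiam i s)
    (by
      filter_upwards [hS1] with i hi v hv
      have h2 : ∀ j, ∃ s ∈ S i, |v j - s| ≤ Real.exp (-(R i / K)) := fun j => hi.2 _ (hv j)
      choose w hw hvw using h2
      rw [mem_iUnion]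
      refine ⟨⟨w, Fintype.mem_piFinset.2 hw⟩, ?_⟩
      rw [Metric.mem_closedBall, dist_pi_le_iff (Real.exp_pos _).le]
      exact fun j => by rw [Real.dist_eq]; exact hvw j)
  have hz : liminf (fun i : ℕ => ∑ s : {s // s ∈ Fintype.piFinset fun _ : Fin k => S i},
      Metric.ediam (Metric.closedBall (s : Fin k → ℝ) (Real.exp (-(R i / K)))) ^ (d : ℝ)) atTop = 0 := by
    apply Tendsto.liminf_eq
    have hb : Tendsto (fun i : ℕ => ENNReal.ofReal ((2 : ℝ) ^ (d : ℝ) *
        Real.exp (-(d / (2 * K) * R i)))) atTop (𝓝 0) := by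
      have h5 : Tendsto (fun i : ℕ => (2 : ℝ) ^ (d : ℝ) * Real.exp (-(d / (2 * K) * R i))) atTop
          (𝓝 (2 ^ (d : ℝ) * 0)) :=
        (Real.tendsto_exp_neg_atTop_nhds_zero.comp
          (hRt.const_mul_atTop (by positivity : (0 : ℝ) < d / (2 * K)))).const_mul _
      have := ENNReal.tendsto_ofReal h5
      rwa [mul_zero, ENNReal.ofReal_zero] at this
    refine tendsto_of_tendsto_of_tendsto_of_le_of_le' tendsto_const_nhds hb
      (Eventually.of_forall fun i => zero_le) ?_
    have hlarge : ∀ᶠ i : ℕ in atTop, 2 * k * K ^ 2 / d ≤ (i : ℝ) :=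
      tendsto_natCast_atTop_atTop.eventually_ge_atTop _
    filter_upwards [hS1, hlarge] with i hi hl
    have hRp := R_pos hR i
    have hK0 : 0 < K := by linarith
    have e1 : ∀ s : {s // s ∈ Fintype.piFinset fun _ : Fin k => S i},
        Metric.ediam (Metric.closedBall (s : Fin k → ℝ) (Real.exp (-(R i / K)))) ^ (d : ℝ) ≤
        ENNReal.ofReal ((2 * Real.exp (-(R i / K))) ^ (d : ℝ)) := by
      intro s
      rw [← ENNReal.ofReal_rpow_of_nonneg (by positivity) hd0'.le]
      exact ENNReal.rpow_le_rpow (hdiam i s) hd0'.le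
    refine (Finset.sum_le_sum fun s _ => e1 s).trans ?_
    rw [Finset.sum_const, Finset.card_univ, nsmul_eq_mul,
      Fintype.card_coe, ← ENNReal.ofReal_natCast, ← ENNReal.ofReal_mul (Nat.cast_nonneg _)]
    apply ENNReal.ofReal_le_ofReal
    rw [Real.mul_rpow (by norm_num) (Real.exp_pos _).le, ← Real.exp_mul, Fintype.card_piFinset_const]
    have h2 : Real.exp (k * (K * (R i / (i + 1)))) * Real.exp (-(R i / K) * d) ≤
        Real.exp (-(d / (2 * K) * R i)) := by
      rw [← Real.exp_add]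
      apply Real.exp_le_exp.2
      have hi1 : (0 : ℝ) < (i : ℝ) + 1 := by positivity
      have h3 : k * (K * (R i / (i + 1))) ≤ d / (2 * K) * R i := by
        have h4 : k * K / (i + 1) ≤ d / (2 * K) := by
          rw [div_le_div_iff₀ hi1 (by positivity)]
          rw [div_le_iff₀ hd0'] at hl
          nlinarith
        calc k * (K * (R i / (i + 1))) = k * K / (i + 1) * R i := by ring
          _ ≤ _ := mul_le_mul_of_nonneg_right h4 hRp.le
      have e : -(R i / K) * d = -(2 * (d / (2 * K) * R i)) := by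
        field_simp
      rw [e]
      linarith
    have hc : (((S i).card ^ k : ℕ) : ℝ) ≤ Real.exp (k * (K * (R i / (i + 1)))) := by
      rw [Real.exp_nat_mul]
      push_cast
      exact pow_le_pow_left₀ (Nat.cast_nonneg _) hi.1 k
    calc (((S i).card ^ k : ℕ) : ℝ) * (2 ^ (d : ℝ) * Real.exp (-(R i / K) * d)) =
          2 ^ (d : ℝ) * ((((S i).card ^ k : ℕ) : ℝ) * Real.exp (-(R i / K) * d)) := by ring
      _ ≤ 2 ^ (d : ℝ) * (Real.exp (k * (K * (R i / (i + 1)))) * Real.exp (-(R i / K) * d)) := by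
        apply mul_le_mul_of_nonneg_left _ (by positivity)
        exact mul_le_mul_of_nonneg_right hc (Real.exp_pos _).le
      _ ≤ _ := mul_le_mul_of_nonneg_left h2 (by positivity)
  rw [hz] at key
  rw [hinf] at key
  simp at key

end

end Pool.Agent.K3h28.FZ
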